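import Mathlib
import Pool.Agent.Helper28.MT.Goals2
import Pool.Agent.Helper23.MT.LAB

/-!
# Project MT2: the random labeling (packet MT2-LAB2)
-/

set_option autoImplicit false

namespace Pool.Agent.Helper72.MT2

open Finset
open Pool.Agent.Helper28.MT Pool.Agent.Helper28.MT2

/-- The labels of the reservoir of level `l` and group `g`. -/
def dl (N s l g : ℕ) : Finset (Fin N) :=
  univ.filter (fun lam : Fin N => lv s lam.val = l ∧ grp s lam.val = g)

lemma dl_low (N s l g : ℕ) (hl : l < s) : dl N s l g = Pool.Agent.Helper23.MT.dlab N s l g := by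
  ext lam
  simp only [dl, Pool.Agent.Helper23.MT.dlab, mem_filter, mem_univ, true_and, lv, grp]
  by_cases h1 : lam.val < s * 2 ^ s
  · rw [if_pos h1, if_pos h1]
    constructor
    · rintro ⟨h2, h3⟩
      rw [h2] at h3
      exact ⟨h1, h2, h3⟩
    · rintro ⟨-, h2, h3⟩
      refine ⟨h2, ?_⟩
      rw [h2]
      exact h3
  · rw [if_neg h1]
    constructor
    · rintro ⟨h2, -⟩
      exfalso
      split_ifs at h2 <;> omega
    · rintro ⟨h2, -⟩
      exact absurd h2 h1

lemma card_int (N a b : ℕ) (hab : a + b ≤ N) :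
    (univ.filter (fun lam : Fin N => a ≤ lam.val ∧ lam.val < a + b)).card = b := by
  have h : (range b).card
      = (univ.filter (fun lam : Fin N => a ≤ lam.val ∧ lam.val < a + b)).card := by
    apply card_bij (fun i hi => (⟨a + i, by have := mem_range.mp hi; omega⟩ : Fin N))
    · intro i hi
      have := mem_range.mp hi
      simp only [mem_filter, mem_univ, true_and]
      omega
    · intro i hi j hj hij
      have := congrArg Fin.val hij
      simp only at this
      omega
    · intro lam hlam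
      simp only [mem_filter, mem_univ, true_and] at hlam
      refine ⟨lam.val - a, mem_range.mpr (by omega), ?_⟩
      apply Fin.ext
      simp only
      omega
  rw [← h, card_range]

lemma lv_low (s m : ℕ) (h1 : m < s * 2 ^ s) : lv s m < s := by
  unfold lv
  rw [if_pos h1]
  exact Nat.div_lt_of_lt_mul (by rw [mul_comm]; exact h1)

lemma dl_mid (N s : ℕ) : dl N s s 0 =
    univ.filter (fun lam : Fin N => s * 2 ^ s ≤ lam.val ∧ lam.val < s * 2 ^ s + s * 2 ^ s) := by
  ext lam
  simp only [dl, mem_filter, mem_univ, true_and]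
  by_cases h1 : lam.val < s * 2 ^ s
  · have h2 := lv_low s lam.val h1
    constructor
    · rintro ⟨h3, -⟩
      omega
    · rintro ⟨h3, -⟩
      omega
  · unfold lv grp
    rw [if_neg h1, if_neg h1]
    split_ifs with h2
    · constructor
      · intro _
        omega
      · intro _
        exact ⟨rfl, rfl⟩
    · constructor
      · rintro ⟨h3, -⟩
        omega
      · rintro ⟨-, h3⟩
        omega

lemma card_dl (N s l g : ℕ) (hl : l ≤ s) (hg : g < 2 ^ (s - l)) (hN : 2 * (s * 2 ^ s) ≤ N) :
    (dl N s l g).card = if l < s then 2 ^ l else s * 2 ^ s := by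
  by_cases h : l < s
  · rw [if_pos h, dl_low N s l g h]
    exact Pool.Agent.Helper23.MT.card_dlab N s l g h hg (by omega)
  · have e : l = s := by omega
    subst e
    have e2 : g = 0 := by
      rw [Nat.sub_self, pow_zero] at hg
      omega
    subst e2
    rw [if_neg h, dl_mid]
    exact card_int N _ _ (by omega)

lemma card_low (N s : ℕ) (hN : 2 * (s * 2 ^ s) ≤ N) :
    (univ.filter (fun lam : Fin N => lam.val < 2 * (s * 2 ^ s))).card = 2 * (s * 2 ^ s) := by
  have h := card_int N 0 (2 * (s * 2 ^ s)) (by omega)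
  simpa using h

/-- the number of patterns is small -/
lemma count_one (n k h s a : ℕ) (hk : 2 ≤ k) (hnk : n ≤ k) (hkh : k ≤ 2 ^ h) (hs : 1 ≤ s)
    (hsh : s ≤ h) (ha : a = n * k) :
    4 * (((s + 1) * 2 ^ s) * (a ^ n * (n + 1) ^ n)) ≤ 2 ^ (7 * h * k) := by
  have h1 : s + 1 ≤ 2 ^ h := (Nat.succ_le_succ hsh).trans Nat.lt_two_pow_self
  have h2 : 2 ^ s ≤ 2 ^ h := Nat.pow_le_pow_right (by norm_num) hsh
  have h3 : a ≤ 2 ^ (2 * h) := by
    rw [ha, two_mul, pow_add]
    exact Nat.mul_le_mul (hnk.trans hkh) hkh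
  have h4 : n + 1 ≤ 2 ^ (h + 1) := by
    have : 1 ≤ 2 ^ h := Nat.one_le_two_pow
    rw [pow_succ]
    omega
  have h5 : a ^ n ≤ 2 ^ (2 * h * n) := by
    rw [pow_mul]
    exact Nat.pow_le_pow_left h3 n
  have h6 : (n + 1) ^ n ≤ 2 ^ ((h + 1) * n) := by
    rw [pow_mul]
    exact Nat.pow_le_pow_left h4 n
  calc 4 * (((s + 1) * 2 ^ s) * (a ^ n * (n + 1) ^ n))
      ≤ 2 ^ 2 * ((2 ^ h * 2 ^ h) * (2 ^ (2 * h * n) * 2 ^ ((h + 1) * n))) := by
        gcongr
        · norm_num
    _ = 2 ^ (2 + 2 * h + (2 * h * n + (h + 1) * n)) := by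
        rw [← pow_add, ← pow_add, ← pow_add, ← pow_add]
        congr 1
        ring
    _ ≤ 2 ^ (7 * h * k) := by
        apply Nat.pow_le_pow_right (by norm_num)
        have hh : 1 ≤ h := hs.trans hsh
        have e1 : h * n ≤ h * k := Nat.mul_le_mul_left _ hnk
        have e2 : k ≤ h * k := Nat.le_mul_of_pos_left _ hh
        have e3 : h * 2 ≤ h * k := Nat.mul_le_mul_left _ hk
        have e4 : 2 * h * n = 2 * (h * n) := by ring
        have e5 : (h + 1) * n = h * n + n := by ring
        have e6 : 7 * h * k = 7 * (h * k) := by ring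
        omega

theorem mt2_lab2 : G_H2 → G_R1 → G_LAB2 := by
  intro hH hR α _ _ n k h s U X hk hnk hkh hs hsh hcard
  classical
  obtain ⟨N, hN⟩ : ∃ N : ℕ, N = 2 ^ 25 * (s * 2 ^ s) := ⟨_, rfl⟩
  have hsP : 0 < s * 2 ^ s := by positivity
  have hNpos : 0 < N := by rw [hN]; positivity
  have hsN : 2 * (s * 2 ^ s) ≤ N := by
    rw [hN]; exact Nat.mul_le_mul_right _ (by norm_num)
  have hh : 1 ≤ h := hs.trans hsh
  set a := Fintype.card α with hadef
  -- first family of bad labelings
  let B1 : (Fin (s + 1) × Fin (2 ^ s)) × ((Fin n → α) × (Fin n → Fin (n + 1))) →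
      Finset (α → Fin N) := fun p =>
    univ.filter (fun f => (p.1.2.val < 2 ^ (s - p.1.1.val) ∧
      Lth h k s p.1.1.val ≤ (U p.2.1 p.2.2).card) ∧
      ((U p.2.1 p.2.2).filter (fun x => f x ∈ dl N s p.1.1.val p.1.2.val)).card ≤ 4 * h * k)
  have hB1 : ∀ p, (B1 p).card * 2 ^ (7 * h * k) ≤ N ^ a := by
    intro p
    by_cases hp : p.1.2.val < 2 ^ (s - p.1.1.val) ∧
      Lth h k s p.1.1.val ≤ (U p.2.1 p.2.2).card
    · have hls : p.1.1.val ≤ s := by
        have := p.1.1.isLt
        omega
      have h1 := hH α N k h (dl N s p.1.1.val p.1.2.val) (U p.2.1 p.2.2) hNpos hh (by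
          rw [card_dl N s _ _ hls hp.1 hsN]
          have hp2 := hp.2
          unfold Lth at hp2
          split_ifs at hp2 ⊢ with hlt
          · have e1 : 2 ^ p.1.1.val * 2 ^ (s - p.1.1.val) = 2 ^ s := by
              rw [← pow_add]; congr 1
              omega
            calc 16 * h * k * N = 2 ^ 29 * h * k * s * 2 ^ s := by
                  rw [hN]; norm_num; ring
              _ = 2 ^ 29 * h * k * s * (2 ^ p.1.1.val * 2 ^ (s - p.1.1.val)) := by
                  congr 1
                  exact e1.symm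
              _ = 2 ^ p.1.1.val * (2 ^ 29 * h * k * (s * 2 ^ (s - p.1.1.val))) := by
                  ring
              _ ≤ 2 ^ p.1.1.val * (U p.2.1 p.2.2).card := Nat.mul_le_mul_left _ hp2
          · calc 16 * h * k * N = (s * 2 ^ s) * (2 ^ 29 * h * k * 1) := by
                  rw [hN]; norm_num; ring
              _ ≤ (s * 2 ^ s) * (U p.2.1 p.2.2).card := Nat.mul_le_mul_left _ hp2)
      refine le_trans (Nat.mul_le_mul_right _ (card_le_card ?_)) h1
      intro f hf
      simp only [B1, mem_filter, mem_univ, true_and] at hf ⊢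
      exact hf.2
    · have h1 : B1 p = ∅ := by
        apply filter_eq_empty_iff.mpr
        intro f _ hf
        exact hp hf.1
      rw [h1, card_empty, zero_mul]
      exact Nat.zero_le _
  have hc1 : 4 * (univ.biUnion B1).card ≤ N ^ a := by
    have h1 : (univ.biUnion B1).card * 2 ^ (7 * h * k)
        ≤ (((s + 1) * 2 ^ s) * (a ^ n * (n + 1) ^ n)) * N ^ a := by
      calc (univ.biUnion B1).card * 2 ^ (7 * h * k)
          ≤ (∑ p, (B1 p).card) * 2 ^ (7 * h * k) := Nat.mul_le_mul_right _ card_biUnion_le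
        _ = ∑ p, (B1 p).card * 2 ^ (7 * h * k) := by rw [sum_mul]
        _ ≤ ∑ _p : (Fin (s + 1) × Fin (2 ^ s)) × ((Fin n → α) × (Fin n → Fin (n + 1))), N ^ a :=
            sum_le_sum (fun p _ => hB1 p)
        _ = (((s + 1) * 2 ^ s) * (a ^ n * (n + 1) ^ n)) * N ^ a := by
            rw [sum_const, smul_eq_mul, card_univ]
            simp only [Fintype.card_prod, Fintype.card_fin, Fintype.card_fun]
            rw [← hadef]
    have h2 := count_one n k h s a hk hnk hkh hs hsh hcard
    have h3 : 4 * (univ.biUnion B1).card * 2 ^ (7 * h * k) ≤ N ^ a * 2 ^ (7 * h * k) := by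
      calc 4 * (univ.biUnion B1).card * 2 ^ (7 * h * k)
          = 4 * ((univ.biUnion B1).card * 2 ^ (7 * h * k)) := by ring
        _ ≤ 4 * ((((s + 1) * 2 ^ s) * (a ^ n * (n + 1) ^ n)) * N ^ a) := Nat.mul_le_mul_left _ h1
        _ = (4 * (((s + 1) * 2 ^ s) * (a ^ n * (n + 1) ^ n))) * N ^ a := by ring
        _ ≤ 2 ^ (7 * h * k) * N ^ a := Nat.mul_le_mul_right _ h2
        _ = N ^ a * 2 ^ (7 * h * k) := by ring
    exact Nat.le_of_mul_le_mul_right h3 (by positivity)
  -- second family
  let low : Finset (Fin N) := univ.filter (fun lam : Fin N => lam.val < 2 * (s * 2 ^ s))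
  have hlow : 2 ^ 24 * low.card = N := by
    rw [card_low N s hsN, hN]
    ring
  let B2 : (Finset (Fin n) × Fin k) × (Finset α × Finset α) → Finset (α → Fin N) := fun p =>
    univ.filter (fun f => (k ≤ (X p.1.1 p.1.2 p.2.1 p.2.2).card ∧
      k * (p.2.1.card + p.2.2.card) ≤ 2 * (X p.1.1 p.1.2 p.2.1 p.2.2).card) ∧
      3 * (X p.1.1 p.1.2 p.2.1 p.2.2).card
        < 4 * ((X p.1.1 p.1.2 p.2.1 p.2.2).filter (fun x => f x ∈ low)).card)
  have hB2 : ∀ p, ((B2 p).card : ℝ) ≤ (N : ℝ) ^ a * ((1 / 2 ^ (8 * k)) *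
      ((1 / 2 ^ (4 * k) : ℝ) ^ p.2.1.card * (1 / 2 ^ (4 * k) : ℝ) ^ p.2.2.card)) := by
    intro p
    by_cases hp : k ≤ (X p.1.1 p.1.2 p.2.1 p.2.2).card ∧
      k * (p.2.1.card + p.2.2.card) ≤ 2 * (X p.1.1 p.1.2 p.2.1 p.2.2).card
    · have h1 := hR α N low (X p.1.1 p.1.2 p.2.1 p.2.2) hlow
      have h2 : (B2 p).card * 2 ^ (8 * k + 4 * k * p.2.1.card + 4 * k * p.2.2.card) ≤ N ^ a := by
        refine le_trans (Nat.mul_le_mul (card_le_card ?_)
          (Nat.pow_le_pow_right (by norm_num) ?_)) h1
        · intro f hf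
          simp only [B2, mem_filter, mem_univ, true_and] at hf ⊢
          exact hf.2
        · have e1 : k * (p.2.1.card + p.2.2.card) = k * p.2.1.card + k * p.2.2.card := by ring
          have e2 : 4 * k * p.2.1.card = 4 * (k * p.2.1.card) := by ring
          have e3 : 4 * k * p.2.2.card = 4 * (k * p.2.2.card) := by ring
          have := hp.1
          have := hp.2
          omega
      have h3 : ((B2 p).card : ℝ) * 2 ^ (8 * k + 4 * k * p.2.1.card + 4 * k * p.2.2.card)
          ≤ (N : ℝ) ^ a := by exact_mod_cast h2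
      have h4 : (N : ℝ) ^ a * ((1 / 2 ^ (8 * k)) *
          ((1 / 2 ^ (4 * k) : ℝ) ^ p.2.1.card * (1 / 2 ^ (4 * k) : ℝ) ^ p.2.2.card))
          = (N : ℝ) ^ a / 2 ^ (8 * k + 4 * k * p.2.1.card + 4 * k * p.2.2.card) := by
        rw [pow_add, pow_add, one_div_pow, one_div_pow, ← pow_mul, ← pow_mul]
        field_simp
      rw [h4, le_div_iff₀ (by positivity)]
      exact h3
    · have h1 : B2 p = ∅ := by
        apply filter_eq_empty_iff.mpr
        intro f _ hf
        exact hp hf.1
      rw [h1, card_empty, Nat.cast_zero]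
      positivity
  have hc2 : 4 * (univ.biUnion B2).card ≤ N ^ a := by
    have h1 : ((univ.biUnion B2).card : ℝ) ≤ (N : ℝ) ^ a * (1 / 4) := by
      calc ((univ.biUnion B2).card : ℝ) ≤ ((∑ p, (B2 p).card : ℕ) : ℝ) := by
            exact_mod_cast card_biUnion_le
        _ = ∑ p, ((B2 p).card : ℝ) := by push_cast; rfl
        _ ≤ ∑ p : (Finset (Fin n) × Fin k) × (Finset α × Finset α),
              (N : ℝ) ^ a * ((1 / 2 ^ (8 * k)) *
      ((1 / 2 ^ (4 * k) : ℝ) ^ p.2.1.card * (1 / 2 ^ (4 * k) : ℝ) ^ p.2.2.card)) :=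
            sum_le_sum (fun p _ => hB2 p)
        _ = (N : ℝ) ^ a * ((2 : ℝ) ^ n * k * ((1 / 2 ^ (8 * k)) *
      ((∑ E : Finset α, (1 / 2 ^ (4 * k) : ℝ) ^ E.card) *
        (∑ E : Finset α, (1 / 2 ^ (4 * k) : ℝ) ^ E.card)))) := by
            rw [← mul_sum, Fintype.sum_prod_type]
            simp only [sum_const, card_univ, nsmul_eq_mul, Fintype.card_prod,
              Fintype.card_finset, Fintype.card_fin]
            rw [← mul_sum, Fintype.sum_prod_type, sum_mul_sum]
            push_cast
            ring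
        _ ≤ (N : ℝ) ^ a * (1 / 4) := by
            apply mul_le_mul_of_nonneg_left _ (by positivity)
            exact Pool.Agent.Helper23.MT.count_two α n k hk hnk hcard
    have h2 : (4 : ℝ) * (univ.biUnion B2).card ≤ (N : ℝ) ^ a := by linarith
    exact_mod_cast h2
  -- choose
  have htot : (univ : Finset (α → Fin N)).card = N ^ a := by
    rw [card_univ, Fintype.card_fun, Fintype.card_fin]
  have hex : ∃ f : α → Fin N, f ∉ (univ.biUnion B1) ∪ (univ.biUnion B2) := by
    by_contra hcon
    simp only [not_exists, not_not] at hcon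
    have h1 : (univ : Finset (α → Fin N)) ⊆ (univ.biUnion B1) ∪ (univ.biUnion B2) :=
      fun f _ => hcon f
    have h2 := card_le_card h1
    have h3 := card_union_le (univ.biUnion B1) (univ.biUnion B2)
    have h4 : 0 < N ^ a := by positivity
    rw [htot] at h2
    omega
  obtain ⟨f, hf⟩ := hex
  rw [mem_union, not_or] at hf
  obtain ⟨hf1, hf2⟩ := hf
  refine ⟨fun x => (f x).val, ?_, ?_⟩
  · intro l hl g hg e gg hU
    by_contra hcon
    rw [not_lt] at hcon
    apply hf1
    rw [mem_biUnion]
    have hg2 : g < 2 ^ s := lt_of_lt_of_le hg (Nat.pow_le_pow_right (by norm_num) (by omega))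
    refine ⟨((⟨l, by omega⟩, ⟨g, hg2⟩), (e, gg)), mem_univ _, ?_⟩
    simp only [B1, mem_filter, mem_univ, true_and]
    refine ⟨⟨hg, hU⟩, ?_⟩
    have e1 : (U e gg).filter (fun x => f x ∈ dl N s l g)
        = rsv s l g (fun x => (f x).val) ∩ U e gg := by
      ext x
      simp only [dl, rsv, mem_filter, mem_inter, mem_univ, true_and]
      tauto
    rw [e1]
    exact hcon
  · intro I j E Q h1 h2
    by_contra hcon
    rw [not_le] at hcon
    apply hf2
    rw [mem_biUnion]
    refine ⟨((I, j), (E, Q)), mem_univ _, ?_⟩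
    simp only [B2, mem_filter, mem_univ, true_and]
    refine ⟨⟨h1, h2⟩, ?_⟩
    have e1 : ((X I j E Q).filter (fun x => f x ∈ low)).card
        + (rsv s (s + 1) 0 (fun x => (f x).val) ∩ X I j E Q).card
        = (X I j E Q).card := by
      have e2 : rsv s (s + 1) 0 (fun x => (f x).val) ∩ X I j E Q
          = (X I j E Q).filter (fun x => ¬ (f x ∈ low)) := by
        ext x
        have e3 : (lv s (f x).val = s + 1 ∧ grp s (f x).val = 0) ↔
            ¬ ((f x).val < 2 * (s * 2 ^ s)) := by
          by_cases h3 : (f x).val < s * 2 ^ s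
          · have h4 := lv_low s _ h3
            constructor
            · rintro ⟨h5, -⟩
              omega
            · intro h5
              omega
          · unfold lv grp
            rw [if_neg h3, if_neg h3]
            split_ifs with h4
            · constructor
              · rintro ⟨h5, -⟩
                omega
              · intro h5
                exact absurd h4 h5
            · exact ⟨fun _ => h4, fun _ => ⟨rfl, rfl⟩⟩
        simp only [rsv, low, mem_filter, mem_inter, mem_univ, true_and]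
        rw [e3]
        tauto
      rw [e2]
      exact card_filter_add_card_filter_not _
    omega

end Pool.Agent.Helper72.MT2
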